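import Pool.Agent.R34.DP.Stm

/-! Piece DP-MERGE: merging two blocks. -/

open MeasureTheory ProbabilityTheory Set Filter
open scoped NNReal ENNReal Topology

namespace R34.DP

namespace MERGEaux

variable {X : Type} [NormedAddCommGroup X] [NormedSpace ℝ X]

/-- the rotation -/
noncomputable def rot (p : X × X) : X × X :=
  ((1 / Real.sqrt 2) • (p.1 + p.2), (1 / Real.sqrt 2) • (p.1 - p.2))

theorem rot_cont : Continuous (rot : X × X → X × X) := by
  unfold rot
  fun_prop

theorem c_sq : (1 / Real.sqrt 2) * (1 / Real.sqrt 2) = (1 / 2 : ℝ) := by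
  rw [div_mul_div_comm, Real.mul_self_sqrt (by norm_num)]
  norm_num

theorem rot_rot (p : X × X) : rot (rot p) = p := by
  unfold rot
  ext
  · simp only
    rw [← smul_add, smul_smul, c_sq, add_add_sub_cancel, ← two_smul ℝ p.1, smul_smul]
    norm_num
  · simp only
    rw [← smul_sub, smul_smul, c_sq, add_sub_sub_cancel, ← two_smul ℝ p.2, smul_smul]
    norm_num

theorem c_le : (1 / Real.sqrt 2) ≤ (1 : ℝ) := by
  rw [div_le_one (by positivity)]
  exact Real.one_le_sqrt.2 (by norm_num)

theorem dist_rot (S S' D : X) : dist (rot (S, D)) (rot (S', D)) ≤ dist S S' := by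
  unfold rot
  rw [Prod.dist_eq]
  simp only
  have h0 : (0 : ℝ) ≤ 1 / Real.sqrt 2 := by positivity
  have h1 : dist ((1 / Real.sqrt 2) • (S + D)) ((1 / Real.sqrt 2) • (S' + D)) ≤ dist S S' := by
    rw [dist_smul₀, dist_add_right, Real.norm_of_nonneg h0]
    exact mul_le_of_le_one_left dist_nonneg c_le
  have h2 : dist ((1 / Real.sqrt 2) • (S - D)) ((1 / Real.sqrt 2) • (S' - D)) ≤ dist S S' := by
    rw [dist_smul₀, dist_sub_right, Real.norm_of_nonneg h0]
    exact mul_le_of_le_one_left dist_nonneg c_le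
  exact max_le h1 h2

end MERGEaux

open MERGEaux in
theorem t_MERGE : S_MERGE := by
  intro X _ _ _ _ _ _ _ _ μ _ hrot φ G hφ hG hmono
  obtain ⟨⟨Kφ, hKφ⟩, Bφ, hBφ⟩ := hφ
  obtain ⟨⟨K, hK⟩, B, hB⟩ := hG
  have hc1 : Continuous (fun p : X × X => G (rot p)) := hK.continuous.comp rot_cont
  have hc2 : ∀ S : X, Continuous (fun D : X => G (rot (S, D))) := fun S =>
    hc1.comp (Continuous.prodMk_right S)
  have hi2 : ∀ S : X, Integrable (fun D : X => G (rot (S, D))) μ := fun S =>
    Integrable.of_bound (hc2 S).aestronglyMeasurable B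
      (Filter.Eventually.of_forall fun D => by rw [Real.norm_eq_abs]; exact hB _)
  have h0 : (0 : ℝ) ≤ 1 / Real.sqrt 2 := by positivity
  have hcφ : Continuous (fun p : X × X => |φ p.1 - G (rot p)|) :=
    ((hKφ.continuous.comp continuous_fst).sub hc1).abs
  have hi3 : Integrable (fun p : X × X => |φ p.1 - G (rot p)|) (μ.prod μ) :=
    Integrable.of_bound hcφ.aestronglyMeasurable (Bφ + B)
      (Filter.Eventually.of_forall fun p => by
        rw [Real.norm_eq_abs, abs_abs]
        exact (abs_sub _ _).trans (add_le_add (hBφ _) (hB _)))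
  refine ⟨fun S => ∫ D, G (rot (S, D)) ∂μ, ⟨⟨K, ?_⟩, B, ?_⟩, ?_, ?_⟩
  · refine LipschitzWith.of_dist_le_mul fun S S' => ?_
    rw [Real.dist_eq, ← integral_sub (hi2 S) (hi2 S')]
    refine (abs_integral_le_integral_abs).trans ?_
    have h1 : ∀ D, |G (rot (S, D)) - G (rot (S', D))| ≤ K * dist S S' := by
      intro D
      rw [← Real.dist_eq]
      exact (hK.dist_le_mul _ _).trans (mul_le_mul_of_nonneg_left (dist_rot S S' D) K.2)
    refine (integral_mono ((hi2 S).sub (hi2 S')).abs (integrable_const _) h1).trans ?_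
    simp
  · intro S
    refine (abs_integral_le_integral_abs).trans ?_
    refine (integral_mono (hi2 S).abs (integrable_const B) fun D => hB _).trans ?_
    simp
  · intro S S' hS
    refine integral_mono (hi2 S) (hi2 S') fun D => hmono ?_
    exact ⟨smul_le_smul_of_nonneg_left (by simpa using hS) h0,
      smul_le_smul_of_nonneg_left (by simpa using hS) h0⟩
  · have e1 : ∫ p : X × X, |φ ((1 / Real.sqrt 2) • (p.1 + p.2)) - G p| ∂(μ.prod μ) =
        ∫ p : X × X, |φ p.1 - G (rot p)| ∂(μ.prod μ) := by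
      have h1 : (μ.prod μ).map rot = μ.prod μ := hrot
      have h2 : ∫ p, |φ p.1 - G (rot p)| ∂((μ.prod μ).map rot) =
          ∫ p : X × X, |φ (rot p).1 - G (rot (rot p))| ∂(μ.prod μ) :=
        integral_map rot_cont.measurable.aemeasurable hcφ.aestronglyMeasurable
      rw [h1] at h2
      rw [h2]
      refine integral_congr_ae (Filter.Eventually.of_forall fun p => ?_)
      simp only [rot_rot]
      rfl
    rw [e1, integral_prod _ hi3]
    refine integral_mono_of_nonneg (Filter.Eventually.of_forall fun S => abs_nonneg _)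
      hi3.integral_prod_left (Filter.Eventually.of_forall fun S => ?_)
    have h3 : φ S - ∫ D, G (rot (S, D)) ∂μ = ∫ D, (φ S - G (rot (S, D))) ∂μ := by
      rw [integral_sub (integrable_const _) (hi2 S)]
      simp
    simp only
    rw [h3]
    exact abs_integral_le_integral_abs

end R34.DP
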